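import Pool.Agent.H7.MF.Stmts

/-!
# Board `mf18`, row NETE (helper23, after the row NET9 of helper60 and the row NET of helper86)
-/

set_option autoImplicit false

open Finset

namespace Pool.MF7

open Pool.Agent.H23.KT Pool.Agent.H46.KW Pool.KQ Pool.GT7 Pool.GU7 Pool.GV7

/-- The numerical part. -/
theorem NETE_num (p w r a : ℕ) (hP : Pr0 p w r) (hw1 : 1 ≤ w)
    (hR : 2 * r < (w + 1) * (p + 3 - r)) (K e Λ : ℝ) (_hK : 0 < K)
    (he0 : 0 ≤ e) (he : e ≤ e1 p / 2) (ha1 : 1 ≤ a) (haK : 96 * ((p : ℝ) + 3) * K ≤ a)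
    (ha2 : 192 * ((p : ℝ) + 3) * (2 ^ (p + 1) * ((p : ℝ) + 2)) ≤ a) (hΛ : 0 < Λ)
    (hΛ2 : Λ * (a : ℝ) ^ (p + 3) ≤ (1 + K / a) * ((p + 2).choose (w + 1) * (a : ℝ) ^ (w + 1))) :
    Λ * (((1 + e) * a) ^ (p + 2) *
        ((r : ℝ) / (((p : ℝ) + 3 - r) * ((p : ℝ) + 2)) + ((p : ℝ) + 3) / 2 * e1 p)) +
      Λ * (2 * a) ^ (p + 1) ≤
      1 / 2 * ((1 - 1 / (32 * ((p : ℝ) + 3))) * ((p + 1).choose w * (a : ℝ) ^ w)) := by
  obtain ⟨hwp, hr1, hrp⟩ := hP
  have hp0 : (0 : ℝ) ≤ p := Nat.cast_nonneg p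
  have hw0 : (0 : ℝ) ≤ w := Nat.cast_nonneg w
  have ha0 : (0 : ℝ) < a := by exact_mod_cast ha1
  have hr1' : (1 : ℝ) ≤ r := by exact_mod_cast hr1
  have hrp' : (r : ℝ) ≤ p := by exact_mod_cast hrp
  have hw1' : (1 : ℝ) ≤ w := by exact_mod_cast hw1
  have hR' : 2 * (r : ℝ) + 1 ≤ ((w : ℝ) + 1) * ((p : ℝ) + 3 - r) := by
    have h : ((2 * r + 1 : ℕ) : ℝ) ≤ (((w + 1) * (p + 3 - r) : ℕ) : ℝ) := by
      exact_mod_cast hR
    have hs : ((p + 3 - r : ℕ) : ℝ) = (p : ℝ) + 3 - r := by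
      rw [Nat.cast_sub (by omega)]
      push_cast
      ring
    push_cast [hs] at h
    linarith
  obtain ⟨c1, hc1⟩ : ∃ c1 : ℝ, c1 = ((p + 2).choose (w + 1) : ℝ) := ⟨_, rfl⟩
  obtain ⟨c2, hc2⟩ : ∃ c2 : ℝ, c2 = ((p + 1).choose w : ℝ) := ⟨_, rfl⟩
  have hc : ((p : ℝ) + 2) * c2 = c1 * ((w : ℝ) + 1) := by
    have h := Nat.add_one_mul_choose_eq (p + 1) w
    rw [hc1, hc2]
    have h' : ((p + 2 : ℕ) : ℝ) * ((p + 1).choose w : ℝ) =
        ((p + 2).choose (w + 1) : ℝ) * ((w + 1 : ℕ) : ℝ) := by exact_mod_cast h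
    push_cast at h'
    exact h'
  have hc20 : 0 ≤ c2 := by rw [hc2]; positivity
  have hc10 : 0 ≤ c1 := by rw [hc1]; positivity
  have hc12 : c1 ≤ ((p : ℝ) + 2) * c2 := by
    rw [hc]; nlinarith
  rw [← hc1] at hΛ2
  rw [← hc2]
  obtain ⟨A, hA⟩ : ∃ A : ℝ, A = (a : ℝ) ^ w := ⟨_, rfl⟩
  have hA0 : 0 < A := by rw [hA]; positivity
  -- `β = 1 / b`
  obtain ⟨β, hβ⟩ : ∃ β : ℝ, β = 1 / ((p : ℝ) + 3) := ⟨_, rfl⟩
  have hb0 : (0 : ℝ) < (p : ℝ) + 3 := by linarith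
  have hβb : β * ((p : ℝ) + 3) = 1 := by rw [hβ]; field_simp
  have hβ0 : 0 < β := by rw [hβ]; positivity
  have hβ3 : β ≤ 1 / 3 := by
    rw [hβ]
    apply one_div_le_one_div_of_le (by norm_num)
    linarith
  have hKa : 1 + K / a ≤ 1 + β / 96 := by
    have : K / a ≤ β / 96 := by
      rw [div_le_iff₀ ha0]
      calc K = β / 96 * (96 * ((p : ℝ) + 3) * K) := by
            calc K = (β * ((p : ℝ) + 3)) * K := by rw [hβb, one_mul]
              _ = _ := by ring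
        _ ≤ β / 96 * a := mul_le_mul_of_nonneg_left haK (by positivity)
    linarith
  -- the factor `Λ`
  have h1 : Λ * (a : ℝ) ^ (p + 2) ≤ (1 + β / 96) * (c1 * A) := by
    have h : (Λ * (a : ℝ) ^ (p + 2)) * a ≤ ((1 + β / 96) * (c1 * A)) * a := by
      calc (Λ * (a : ℝ) ^ (p + 2)) * a = Λ * (a : ℝ) ^ (p + 3) := by ring
        _ ≤ (1 + K / a) * (c1 * (a : ℝ) ^ (w + 1)) := hΛ2
        _ ≤ (1 + β / 96) * (c1 * (a : ℝ) ^ (w + 1)) :=
          mul_le_mul_of_nonneg_right hKa (by positivity)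
        _ = ((1 + β / 96) * (c1 * A)) * a := by rw [hA]; ring
    exact le_of_mul_le_mul_right h ha0
  have h2 : Λ * (2 * (a : ℝ)) ^ (p + 1) ≤ β / 96 * (c2 * A) := by
    have h : (Λ * (2 * (a : ℝ)) ^ (p + 1)) * a ≤ (β / 96 * (c2 * A)) * a := by
      calc (Λ * (2 * (a : ℝ)) ^ (p + 1)) * a = 2 ^ (p + 1) * (Λ * (a : ℝ) ^ (p + 2)) := by
            rw [mul_pow]; ring
        _ ≤ 2 ^ (p + 1) * ((1 + β / 96) * (c1 * A)) :=
          mul_le_mul_of_nonneg_left h1 (by positivity)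
        _ ≤ 2 ^ (p + 1) * (2 * ((((p : ℝ) + 2) * c2) * A)) := by
          apply mul_le_mul_of_nonneg_left _ (by positivity)
          apply mul_le_mul (by linarith) _ (by positivity) (by norm_num)
          exact mul_le_mul_of_nonneg_right hc12 hA0.le
        _ = (β * ((p : ℝ) + 3)) * (2 ^ (p + 1) * (2 * ((((p : ℝ) + 2) * c2) * A))) := by
          rw [hβb, one_mul]
        _ = β / 96 * (c2 * A) * (192 * ((p : ℝ) + 3) * (2 ^ (p + 1) * ((p : ℝ) + 2))) := by ring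
        _ ≤ β / 96 * (c2 * A) * a := mul_le_mul_of_nonneg_left ha2 (by positivity)
    exact le_of_mul_le_mul_right h ha0
  -- the power of `1 + e`
  have hpe : ((p : ℝ) + 2) * e ≤ β / 96 := by
    have hE : e ≤ 1 / (32 * ((p : ℝ) + 3) ^ 3) := by
      refine he.trans (le_of_eq ?_)
      unfold e1
      field_simp
      norm_num
    calc ((p : ℝ) + 2) * e ≤ ((p : ℝ) + 3) * (1 / (32 * ((p : ℝ) + 3) ^ 3)) := by
          apply mul_le_mul (by linarith) hE he0 (by positivity)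
      _ = β * β / 32 := by rw [hβ]; field_simp
      _ ≤ β * (1 / 3) / 32 := by
          apply div_le_div_of_nonneg_right _ (by norm_num)
          exact mul_le_mul_of_nonneg_left hβ3 hβ0.le
      _ = β / 96 := by ring
  have he1 : e ≤ 1 / 288 := by nlinarith
  have h3 : (1 + e) ^ (p + 2) ≤ 1 + β / 48 := by
    have hB : 1 - ((p : ℝ) + 2) * e ≤ (1 - e) ^ (p + 2) := by
      have := one_add_mul_le_pow (a := -e) (by linarith) (p + 2)
      push_cast at this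
      have e2 : (1 : ℝ) + -e = 1 - e := by ring
      rw [e2] at this
      linarith
    have hC : (1 + e) ^ (p + 2) * (1 - e) ^ (p + 2) ≤ 1 := by
      rw [← mul_pow]
      apply pow_le_one₀
      · nlinarith
      · nlinarith
    have hD : 1 - β / 96 ≤ (1 - e) ^ (p + 2) := by linarith
    have hE0 : (0 : ℝ) ≤ (1 + e) ^ (p + 2) := by positivity
    have hF : (1 + e) ^ (p + 2) * (1 - β / 96) ≤ (1 + β / 48) * (1 - β / 96) := by
      have h5 : (1 + e) ^ (p + 2) * (1 - β / 96) ≤ 1 :=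
        (mul_le_mul_of_nonneg_left hD hE0).trans hC
      have h6 : (1 : ℝ) ≤ (1 + β / 48) * (1 - β / 96) := by nlinarith
      linarith
    exact le_of_mul_le_mul_right hF (by linarith)
  -- the bracket
  obtain ⟨g, hg⟩ : ∃ g : ℝ, g = (r : ℝ) / (((p : ℝ) + 3 - r) * ((p : ℝ) + 2)) +
    ((p : ℝ) + 3) / 2 * e1 p := ⟨_, rfl⟩
  have hbr : (3 : ℝ) ≤ (p : ℝ) + 3 - r := by linarith
  have hg0 : 0 ≤ g := by
    rw [hg]
    have : 0 ≤ (p : ℝ) + 3 - r := by linarith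
    unfold e1
    positivity
  have h4 : c1 * g ≤ (1 / 2 - 15 / 64 * β) * c2 := by
    have hA1 : c1 * ((r : ℝ) / (((p : ℝ) + 3 - r) * ((p : ℝ) + 2))) ≤
        (1 / 2 - 1 / 4 * β) * c2 := by
      have hpos : (0 : ℝ) < ((p : ℝ) + 3 - r) * ((p : ℝ) + 2) := by
        apply mul_pos <;> linarith
      rw [mul_div_assoc', div_le_iff₀ hpos]
      have h7 : 2 * (r : ℝ) ≤ (1 - β / 2) * (((w : ℝ) + 1) * ((p : ℝ) + 3 - r)) := by
        have h8 : (1 - β / 2) * (2 * (r : ℝ) + 1) ≤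
            (1 - β / 2) * (((w : ℝ) + 1) * ((p : ℝ) + 3 - r)) :=
          mul_le_mul_of_nonneg_left hR' (by linarith)
        have h9 : β * (2 * (r : ℝ) + 1) ≤ 2 := by
          calc β * (2 * (r : ℝ) + 1) ≤ β * (2 * ((p : ℝ) + 3)) :=
                mul_le_mul_of_nonneg_left (by linarith) hβ0.le
            _ = 2 * (β * ((p : ℝ) + 3)) := by ring
            _ = 2 := by rw [hβb, mul_one]
        linarith
      calc c1 * r = 1 / 2 * (c1 * (2 * (r : ℝ))) := by ring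
        _ ≤ 1 / 2 * (c1 * ((1 - β / 2) * (((w : ℝ) + 1) * ((p : ℝ) + 3 - r)))) := by
            apply mul_le_mul_of_nonneg_left _ (by norm_num)
            exact mul_le_mul_of_nonneg_left h7 hc10
        _ = 1 / 2 * ((1 - β / 2) * ((c1 * ((w : ℝ) + 1)) * ((p : ℝ) + 3 - r))) := by ring
        _ = 1 / 2 * ((1 - β / 2) * ((((p : ℝ) + 2) * c2) * ((p : ℝ) + 3 - r))) := by rw [hc]
        _ = _ := by ring
    have hA2 : c1 * (((p : ℝ) + 3) / 2 * e1 p) ≤ 1 / 64 * β * c2 := by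
      have hb : ((p : ℝ) + 3) / 2 * e1 p = β * β / 32 := by
        rw [hβ]
        unfold e1
        field_simp
        norm_num
      rw [hb]
      calc c1 * (β * β / 32) ≤ (((p : ℝ) + 3) * c2 / 2) * (β * β / 32) := by
            apply mul_le_mul_of_nonneg_right _ (by positivity)
            nlinarith
        _ = (β * ((p : ℝ) + 3)) * (1 / 64 * β * c2) := by ring
        _ = 1 / 64 * β * c2 := by rw [hβb, one_mul]
    rw [hg, mul_add]
    linarith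
  rw [← hg, ← hA]
  have h40 : 0 ≤ 1 / 2 - 15 / 64 * β := by linarith
  have h5 : Λ * (((1 + e) * a) ^ (p + 2) * g) ≤
      (1 + β / 48) * ((1 + β / 96) * ((1 / 2 - 15 / 64 * β) * c2 * A)) := by
    calc Λ * (((1 + e) * a) ^ (p + 2) * g) = (1 + e) ^ (p + 2) * ((Λ * (a : ℝ) ^ (p + 2)) * g) := by
          rw [mul_pow]; ring
      _ ≤ (1 + β / 48) * ((Λ * (a : ℝ) ^ (p + 2)) * g) :=
          mul_le_mul_of_nonneg_right h3 (by positivity)
      _ ≤ (1 + β / 48) * (((1 + β / 96) * (c1 * A)) * g) := by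
          apply mul_le_mul_of_nonneg_left _ (by positivity)
          exact mul_le_mul_of_nonneg_right h1 hg0
      _ = (1 + β / 48) * ((1 + β / 96) * (c1 * g * A)) := by ring
      _ ≤ (1 + β / 48) * ((1 + β / 96) * ((1 / 2 - 15 / 64 * β) * c2 * A)) := by
          apply mul_le_mul_of_nonneg_left _ (by positivity)
          apply mul_le_mul_of_nonneg_left _ (by positivity)
          exact mul_le_mul_of_nonneg_right h4 hA0.le
  have h6 : (1 : ℝ) / (32 * ((p : ℝ) + 3)) = β / 32 := by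
    rw [hβ]
    field_simp
  rw [h6]
  obtain ⟨Z, hZ⟩ : ∃ Z : ℝ, Z = c2 * A := ⟨_, rfl⟩
  have hZ0 : 0 ≤ Z := by rw [hZ]; positivity
  have h8 : (1 + β / 48) * ((1 + β / 96) * ((1 / 2 - 15 / 64 * β) * c2 * A)) =
      ((1 + β / 48) * ((1 + β / 96) * (1 / 2 - 15 / 64 * β))) * Z := by rw [hZ]; ring
  rw [h8] at h5
  rw [← hZ] at h2 ⊢
  have h9 : (1 + β / 48) * ((1 + β / 96) * (1 / 2 - 15 / 64 * β)) + β / 96 ≤
      1 / 2 * (1 - β / 32) := by
    have hq : (1 + β / 48) * (1 + β / 96) ≤ 1 + β / 24 := by nlinarith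
    have hq2 : (1 + β / 48) * ((1 + β / 96) * (1 / 2 - 15 / 64 * β)) ≤
        (1 + β / 24) * (1 / 2 - 15 / 64 * β) := by
      rw [← mul_assoc]
      exact mul_le_mul_of_nonneg_right hq h40
    nlinarith
  calc Λ * (((1 + e) * a) ^ (p + 2) * g) + Λ * (2 * (a : ℝ)) ^ (p + 1)
      ≤ ((1 + β / 48) * ((1 + β / 96) * (1 / 2 - 15 / 64 * β))) * Z + β / 96 * Z :=
        add_le_add h5 h2
    _ = ((1 + β / 48) * ((1 + β / 96) * (1 / 2 - 15 / 64 * β)) + β / 96) * Z := by ring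
    _ ≤ (1 / 2 * (1 - β / 32)) * Z := mul_le_mul_of_nonneg_right h9 hZ0
    _ = 1 / 2 * ((1 - β / 32) * Z) := by ring

theorem nete_thm (hML : MLB0Stmt) (hK : KUMStmt) (hB : BRKStmt) (hT : TRVStmt) (hL : LMB0Stmt) :
    NETEStmt := by
  intro p w r hP hw1 hR
  obtain ⟨K, hK0, hLM⟩ := hL p w r hP
  obtain ⟨A1, hA1⟩ := exists_nat_ge (96 * ((p : ℝ) + 3) * K)
  obtain ⟨A2, hA2⟩ := exists_nat_ge (192 * ((p : ℝ) + 3) * (2 ^ (p + 1) * ((p : ℝ) + 2)))
  refine ⟨A1 + A2 + 1, ?_⟩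
  intro a ha V _ G e P he0 he hPar hsz hnon
  have ha1 : 1 ≤ a := by omega
  have haK : 96 * ((p : ℝ) + 3) * K ≤ a := hA1.trans (by exact_mod_cast (by omega : A1 ≤ a))
  have ha2 : 192 * ((p : ℝ) + 3) * (2 ^ (p + 1) * ((p : ℝ) + 2)) ≤ a := hA2.trans (by exact_mod_cast (by omega : A2 ≤ a))
  obtain ⟨-, hup, hl0, hL0, hlL, -⟩ := hLM a ha1
  have hnum := NETE_num p w r a hP hw1 hR K e (Lm p w r a) hK0 he0 he ha1 haK ha2 hL0 hup
  have hm := hML G p w r a e P hP he0 hPar (fun i => (hsz i).2) hnon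
  have hk := hK G p w a e P hP.wp he0 he hPar (fun i => (hsz i).1) hnon
  have he1 : e ≤ 1 := by
    have h1 : e1 p ≤ 1 := by
      unfold e1
      rw [div_le_one (by positivity)]
      have : (0 : ℝ) ≤ p := Nat.cast_nonneg p
      nlinarith [pow_nonneg (by linarith : (0:ℝ) ≤ (p : ℝ) + 3) 2,
        one_le_pow₀ (by linarith : (1:ℝ) ≤ (p : ℝ) + 3) (n := 3)]
    have h0 : 0 ≤ e1 p := by unfold e1; positivity
    linarith
  have hD : ∀ i, (P i).card ≤ 2 * a := by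
    intro i
    have h := (hsz i).2
    have ha0 : (0 : ℝ) ≤ a := Nat.cast_nonneg a
    have h2 : ((P i).card : ℝ) ≤ ((2 * a : ℕ) : ℝ) := by
      push_cast
      nlinarith
    exact_mod_cast h2
  have hbr := (hB G p P).1 (2 * a) hD
  have htr := (hT G P hPar).1
  have hbr' : (∏ i, ((P i).card : ℝ)) - kc G (un P) (p + 3) ≤ tot G P * (2 * a) ^ (p + 1) := by
    rw [htr]
    have h : ((∏ i, (P i).card : ℕ) : ℝ) ≤ (((trv G P).card + tot G P * (2 * a) ^ (p + 1) : ℕ) : ℝ) := by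
      exact_mod_cast hbr
    push_cast at h
    linarith
  have hM0 : (0 : ℝ) ≤ tot G P := Nat.cast_nonneg _
  have s1 : Lm p w r a * ∑ L ∈ clq G (un P) (p + 3), mm G p r (un P) L ≤
      tot G P * (Lm p w r a * (((1 + e) * a) ^ (p + 2) *
        ((r : ℝ) / (((p : ℝ) + 3 - r) * ((p : ℝ) + 2)) + ((p : ℝ) + 3) / 2 * e1 p))) := by
    calc Lm p w r a * ∑ L ∈ clq G (un P) (p + 3), mm G p r (un P) L
        ≤ Lm p w r a * (tot G P * ((1 + e) * a) ^ (p + 2) *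
        ((r : ℝ) / (((p : ℝ) + 3 - r) * ((p : ℝ) + 2)) + ((p : ℝ) + 3) / 2 * e1 p)) :=
          mul_le_mul_of_nonneg_left hm hL0.le
      _ = _ := by ring
  have s2 : lam p w r a * ((∏ i, ((P i).card : ℝ)) - kc G (un P) (p + 3)) ≤
      tot G P * (Lm p w r a * (2 * a) ^ (p + 1)) := by
    calc lam p w r a * ((∏ i, ((P i).card : ℝ)) - kc G (un P) (p + 3))
        ≤ lam p w r a * (tot G P * (2 * a) ^ (p + 1)) :=
          mul_le_mul_of_nonneg_left hbr' hl0.le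
      _ ≤ Lm p w r a * (tot G P * (2 * a) ^ (p + 1)) :=
          mul_le_mul_of_nonneg_right hlL (by positivity)
      _ = _ := by ring
  have s3 := mul_le_mul_of_nonneg_left hnum hM0
  have s4 : (tot G P : ℝ) * (1 / 2 * ((1 - 1 / (32 * ((p : ℝ) + 3))) * ((p + 1).choose w * (a : ℝ) ^ w))) =
      (tot G P : ℝ) / 2 * ((1 - 1 / (32 * ((p : ℝ) + 3))) * ((p + 1).choose w * (a : ℝ) ^ w)) := by
    ring
  rw [s4, mul_add] at s3
  linarith

end Pool.MF7
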